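import Pool.Agent.helper66.PX.Spec

/-!
# Row px:LN (MP_3938c6_al): a nil, semiprime ring with a multilinear identity is zero
-/

set_option autoImplicit false

noncomputable section

namespace Pool.Agent.PX

universe u v w

section

variable {K : Type u} {R : Type v} [Field K] [Ring R] [Algebra K R]

theorem LN_lmul (U W : Submodule K R) (hW : ∀ x ∈ U, ∀ y ∈ W, x * y ∈ W ∧ y * x ∈ W)
    (l : List R) (hl : ∀ a ∈ l, a ∈ U) (w : R) (hw : w ∈ W) : l.prod * w ∈ W := by
  induction l with
  | nil => simpa using hw
  | cons a l ih =>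
    rw [List.prod_cons, mul_assoc]
    exact (hW a (hl a (List.mem_cons_self ..)) _
      (ih (fun b hb => hl b (List.mem_cons_of_mem _ hb)))).1

theorem LN_rmul (U W : Submodule K R) (hW : ∀ x ∈ U, ∀ y ∈ W, x * y ∈ W ∧ y * x ∈ W)
    (l : List R) (hl : ∀ a ∈ l, a ∈ U) (w : R) (hw : w ∈ W) : w * l.prod ∈ W := by
  induction l generalizing w with
  | nil => simpa using hw
  | cons a l ih =>
    rw [List.prod_cons, ← mul_assoc]
    exact ih (fun b hb => hl b (List.mem_cons_of_mem _ hb)) _
      (hW a (hl a (List.mem_cons_self ..)) w hw).2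

/-- removing the last letter of a reordering -/
theorem LN_perm (s : List ℕ) (p : ℕ) (hp : p ∈ s) (l : List ℕ) (h : (l ++ [p]).Perm s) :
    l.Perm (s.erase p) := by
  have h1 : (l ++ [p]).Perm (p :: l) := List.perm_append_singleton p l
  have h2 : s.Perm (p :: s.erase p) := List.perm_cons_erase hp
  have h3 : (p :: l).Perm (p :: s.erase p) := (h1.symm.trans h).trans h2
  exact h3.cons_inv

theorem LN_perm' (s : List ℕ) (p : ℕ) (hp : p ∈ s) (l : List ℕ) (h : l.Perm (s.erase p)) :
    (l ++ [p]).Perm s := by
  have h1 : (l ++ [p]).Perm (p :: l) := List.perm_append_singleton p l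
  have h2 : s.Perm (p :: s.erase p) := List.perm_cons_erase hp
  exact (h1.trans (h.cons p)).trans h2.symm

theorem LN_mem (s w : List ℕ) : w ∈ s.permutations.toFinset ↔ w.Perm s := by
  rw [List.mem_toFinset, List.mem_permutations]

/-- the identity evaluated at `update x p z`, modulo `W` -/
theorem LN_split (U W : Submodule K R)
    (hW : ∀ x ∈ U, ∀ y ∈ W, x * y ∈ W ∧ y * x ∈ W)
    (s : List ℕ) (hs : s.Nodup) (p : ℕ) (hp : p ∈ s) (c : List ℕ → K) (x : ℕ → R) (z : R)
    (hz : z ∈ U) (hx : ∀ i, x i ∈ U) (hzx : ∀ i, z * x i ∈ W) :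
    EV c s (Function.update x p z) - EV (fun w => c (w ++ [p])) (s.erase p) x * z ∈ W := by
  classical
  have hx' : ∀ i, Function.update x p z i ∈ U := by
    intro i
    by_cases h : i = p
    · subst h; rw [Function.update_self]; exact hz
    · rw [Function.update_of_ne h]; exact hx i
  have hsub : ((s.erase p).permutations.toFinset.image fun w => w ++ [p])
      ⊆ s.permutations.toFinset := by
    intro w hw
    rw [Finset.mem_image] at hw
    obtain ⟨l, hl, rfl⟩ := hw
    rw [LN_mem] at hl ⊢
    exact LN_perm' s p hp l hl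
  have e1 : EV c s (Function.update x p z)
      = ∑ w ∈ s.permutations.toFinset \ ((s.erase p).permutations.toFinset.image fun w => w ++ [p]),
          c w • (w.map (Function.update x p z)).prod
        + ∑ w ∈ ((s.erase p).permutations.toFinset.image fun w => w ++ [p]),
          c w • (w.map (Function.update x p z)).prod := by
    unfold EV
    rw [Finset.sum_sdiff hsub]
  have e2 : ∑ w ∈ ((s.erase p).permutations.toFinset.image fun w => w ++ [p]),
      c w • (w.map (Function.update x p z)).prod
      = EV (fun w => c (w ++ [p])) (s.erase p) x * z := by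
    rw [Finset.sum_image (fun a _ b _ h => List.append_cancel_right h)]
    unfold EV
    rw [Finset.sum_mul]
    refine Finset.sum_congr rfl fun w hw => ?_
    rw [LN_mem] at hw
    have hpw : p ∉ w := by
      intro h
      have h1 : p ∈ s.erase p := hw.subset h
      exact (List.Nodup.not_mem_erase hs) h1
    have h2 : w.map (Function.update x p z) = w.map x := by
      refine List.map_congr_left fun i hi => ?_
      have : i ≠ p := fun h => hpw (h ▸ hi)
      rw [Function.update_of_ne this]
    rw [List.map_append, List.prod_append, h2, List.map_singleton, List.prod_singleton,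
      Function.update_self, smul_mul_assoc]
  have e3 : ∑ w ∈ s.permutations.toFinset \ ((s.erase p).permutations.toFinset.image fun w => w ++ [p]),
      c w • (w.map (Function.update x p z)).prod ∈ W := by
    refine Submodule.sum_mem _ fun w hw => Submodule.smul_mem _ _ ?_
    rw [Finset.mem_sdiff] at hw
    obtain ⟨hw1, hw2⟩ := hw
    rw [LN_mem] at hw1
    have hpw : p ∈ w := hw1.symm.subset hp
    obtain ⟨l1, l2, rfl⟩ := List.append_of_mem hpw
    cases l2 with
    | nil =>
      exfalso
      apply hw2
      rw [Finset.mem_image]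
      refine ⟨l1, ?_, rfl⟩
      rw [LN_mem]
      exact LN_perm s p hp l1 hw1
    | cons i l2 =>
      have hnd : (l1 ++ p :: i :: l2).Nodup := hw1.nodup_iff.mpr hs
      have hip : i ≠ p := by
        intro h
        have h1 : (p :: i :: l2).Nodup := (List.nodup_append.mp hnd).2.1
        rw [List.nodup_cons] at h1
        exact h1.1 (h ▸ List.mem_cons_self ..)
      have e4 : ((l1 ++ p :: i :: l2).map (Function.update x p z)).prod
          = (l1.map (Function.update x p z)).prod
            * ((z * x i) * (l2.map (Function.update x p z)).prod) := by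
        rw [List.map_append, List.prod_append, List.map_cons, List.map_cons, List.prod_cons,
          List.prod_cons, Function.update_self, Function.update_of_ne hip, mul_assoc z (x i)]
      rw [e4]
      refine LN_lmul U W hW _ ?_ _ (LN_rmul U W hW _ ?_ _ (hzx i))
      · intro b hb
        rw [List.mem_map] at hb
        obtain ⟨j, _, rfl⟩ := hb
        exact hx' j
      · intro b hb
        rw [List.mem_map] at hb
        obtain ⟨j, _, rfl⟩ := hb
        exact hx' j
  rw [e1, e2, add_sub_cancel_right]
  exact e3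

/-- the ideal `W'` -/
def LN_sub (U' U W : Submodule K R) (a : R) : Submodule K R where
  carrier := {x | x ∈ U' ∧ ∀ v ∈ U, x * a * v ∈ W}
  add_mem' := by
    rintro x y ⟨hx1, hx2⟩ ⟨hy1, hy2⟩
    refine ⟨U'.add_mem hx1 hy1, fun v hv => ?_⟩
    rw [add_mul, add_mul]
    exact W.add_mem (hx2 v hv) (hy2 v hv)
  zero_mem' := ⟨U'.zero_mem, fun v _ => by rw [zero_mul, zero_mul]; exact W.zero_mem⟩
  smul_mem' := by
    rintro k x ⟨hx1, hx2⟩
    refine ⟨U'.smul_mem k hx1, fun v hv => ?_⟩
    rw [smul_mul_assoc, smul_mul_assoc]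
    exact W.smul_mem k (hx2 v hv)

theorem LN_mem_sub (U' U W : Submodule K R) (a x : R) :
    x ∈ LN_sub U' U W a ↔ x ∈ U' ∧ ∀ v ∈ U, x * a * v ∈ W := Iff.rfl

theorem LN_pow (U : Submodule K R) (hU : ∀ x ∈ U, ∀ y ∈ U, x * y ∈ U) (b : R) (hb : b ∈ U) (m : ℕ) :
    b ^ (m + 1) ∈ U := by
  induction m with
  | zero => simpa using hb
  | succ m ih => rw [pow_succ]; exact hU _ ih _ hb

theorem LN_powW (U W : Submodule K R) (hW : ∀ x ∈ U, ∀ y ∈ W, x * y ∈ W ∧ y * x ∈ W) (b : R)
    (hb : b ∈ U) (m : ℕ) (h : b ^ m ∈ W) (j : ℕ) : b ^ (m + j) ∈ W := by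
  induction j with
  | zero => simpa using h
  | succ j ih => rw [← add_assoc, pow_succ]; exact (hW b hb _ ih).2

/-- a product of a nonempty list of elements of `U` -/
theorem LN_prod (U : Submodule K R) (hU : ∀ x ∈ U, ∀ y ∈ U, x * y ∈ U) (l : List R)
    (hl : ∀ a ∈ l, a ∈ U) (hne : l ≠ []) : l.prod ∈ U := by
  induction l with
  | nil => exact absurd rfl hne
  | cons a l ih =>
    cases l with
    | nil => simpa using hl a (List.mem_cons_self ..)
    | cons b l =>
      rw [List.prod_cons]
      refine hU _ (hl a (List.mem_cons_self ..)) _ (ih ?_ (List.cons_ne_nil b l))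
      exact fun c hc => hl c (List.mem_cons_of_mem _ hc)

theorem LN_EV_mem (U : Submodule K R) (hU : ∀ x ∈ U, ∀ y ∈ U, x * y ∈ U) (c : List ℕ → K)
    (s : List ℕ) (hs : s ≠ []) (x : ℕ → R) (hx : ∀ i, x i ∈ U) : EV c s x ∈ U := by
  unfold EV
  refine Submodule.sum_mem _ fun w hw => Submodule.smul_mem _ _ ?_
  rw [LN_mem] at hw
  refine LN_prod U hU _ ?_ ?_
  · intro b hb
    rw [List.mem_map] at hb
    obtain ⟨j, _, rfl⟩ := hb
    exact hx j
  · intro h
    rw [List.map_eq_nil_iff] at h
    subst h
    exact hs (List.nil_perm.mp hw)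

theorem LN_EV_nil (c : List ℕ → K) (x : ℕ → R) : EV c [] x = c [] • (1 : R) := by
  unfold EV
  simp

end

theorem LN : LN_stmt.{u, v} := by
  intro K R _ _ _ n
  induction n with
  | zero =>
    intro U W _ _ hW _ _ hMI
    obtain ⟨s, c, _, hlen, ⟨w, hw, hc⟩, hid⟩ := hMI
    have hs0 : s = [] := List.length_eq_zero_iff.mp hlen
    subst hs0
    have hw0 : w = [] := List.perm_nil.mp hw
    subst hw0
    have h1 := hid (fun _ => 0) (fun _ => U.zero_mem)
    rw [LN_EV_nil] at h1
    have h2 : (1 : R) ∈ W := by
      have := W.smul_mem (c [])⁻¹ h1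
      rwa [smul_smul, inv_mul_cancel₀ hc, one_smul] at this
    intro x hx
    have := (hW x hx 1 h2).1
    rwa [mul_one] at this
  | succ n ih =>
    intro U W hWU hU hW hSem hnil hMI
    by_contra hnot
    obtain ⟨b₀, hb₀U, hb₀W⟩ := SetLike.not_le_iff_exists.mp hnot
    classical
    -- the element `a`
    obtain ⟨a, haU, haW, haa⟩ : ∃ a ∈ U, a ∉ W ∧ a * a ∈ W := by
      have hex := hnil b₀ hb₀U
      have hk := Nat.find_spec hex
      have hmin := fun m => Nat.find_min (m := m) hex
      obtain ⟨k, hkdef⟩ : ∃ k, k = Nat.find hex := ⟨_, rfl⟩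
      rw [← hkdef] at hk
      have hmin' : ∀ m, m < k → ¬ b₀ ^ (m + 1) ∈ W := by
        intro m hm
        rw [hkdef] at hm
        exact hmin m hm
      cases k with
      | zero => rw [zero_add, pow_one] at hk; exact absurd hk hb₀W
      | succ m =>
        refine ⟨b₀ ^ (m + 1), LN_pow U hU b₀ hb₀U m, hmin' m (Nat.lt_succ_self m), ?_⟩
        rw [← pow_add]
        have h := LN_powW U W hW b₀ hb₀U _ hk m
        have e : m + 1 + 1 + m = m + 1 + (m + 1) := by ring
        rwa [e] at h
    -- `U'` and `W'`
    have hmemU' : ∀ x : R, x ∈ U.map (LinearMap.mulLeft K a) ↔ ∃ u ∈ U, a * u = x := by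
      intro x
      rw [Submodule.mem_map]
      rfl
    obtain ⟨U', hU'⟩ : ∃ U' : Submodule K R, ∀ x : R, x ∈ U' ↔ ∃ u ∈ U, a * u = x := ⟨_, hmemU'⟩
    have hU'U : ∀ x ∈ U', x ∈ U := by
      intro x hx
      obtain ⟨u, hu, rfl⟩ := (hU' x).mp hx
      exact hU a haU u hu
    have haU' : ∀ u ∈ U, a * u ∈ U' := fun u hu => (hU' _).mpr ⟨u, hu, rfl⟩
    have hU'mul : ∀ x ∈ U', ∀ y ∈ U', x * y ∈ U' := by
      intro x hx y hy
      obtain ⟨u, hu, rfl⟩ := (hU' x).mp hx
      rw [mul_assoc]
      exact haU' _ (hU u hu y (hU'U y hy))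
    have hstep := ih U' (LN_sub U' U W a) (fun x hx => hx.1) hU'mul ?_ ?_ ?_ ?_
    · -- conclusion
      have h1 : ∀ u ∈ U, ∀ v ∈ U, a * u * a * v ∈ W := by
        intro u hu v hv
        exact (hstep (haU' u hu)).2 v hv
      have h2 : ∀ u ∈ U, a * u * a ∈ W := by
        intro u hu
        have hauU : a * u ∈ U := hU a haU u hu
        have htU : a * u * a ∈ U := hU _ hauU a haU
        refine hSem _ htU fun v hv => ?_
        have e : a * u * a * v * (a * u * a) = a * u * a * (v * (a * u * a)) := by
          simp only [mul_assoc]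
        rw [e]
        exact h1 u hu _ (hU v hv _ htU)
      exact haW (hSem a haU h2)
    · -- absorption
      intro x hx y hy
      have hxU := hU'U x hx
      refine ⟨⟨hU'mul x hx y hy.1, fun v hv => ?_⟩, ⟨hU'mul y hy.1 x hx, fun v hv => ?_⟩⟩
      · have e : x * y * a * v = x * (y * a * v) := by simp only [mul_assoc]
        rw [e]
        exact (hW x hxU _ (hy.2 v hv)).1
      · obtain ⟨u, hu, rfl⟩ := (hU' x).mp hx
        have e : y * (a * u) * a * v = y * a * (u * (a * v)) := by simp only [mul_assoc]
        rw [e]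
        exact hy.2 _ (hU u hu _ (hU a haU v hv))
    · -- semiprime
      intro x hx hxx
      refine ⟨hx, fun v hv => ?_⟩
      have hxU := hU'U x hx
      have hyU : x * a * v ∈ U := hU _ (hU x hxU a haU) v hv
      refine hSem _ hyU fun u hu => ?_
      have e : x * a * v * u * (x * a * v) = x * (a * (v * u)) * x * a * v := by
        simp only [mul_assoc]
      rw [e]
      exact (hxx _ (haU' _ (hU v hv u hu))).2 v hv
    · -- nil
      intro x hx
      obtain ⟨k, hk⟩ := hnil x (hU'U x hx)
      refine ⟨k, LN_pow U' hU'mul x hx k, fun v hv => ?_⟩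
      rw [mul_assoc]
      exact (hW _ (hU a haU v hv) _ hk).2
    · -- the identity
      obtain ⟨s, c, hsnd, hlen, ⟨w₀, hw₀, hc⟩, hid⟩ := hMI
      have hw₀ne : w₀ ≠ [] := by
        intro h
        subst h
        have := hw₀.length_eq
        rw [hlen] at this
        simp at this
      obtain ⟨w₁, p, hw₁⟩ : ∃ w₁ p, w₀ = w₁ ++ [p] :=
        ⟨w₀.dropLast, w₀.getLast hw₀ne, (List.dropLast_append_getLast hw₀ne).symm⟩
      subst hw₁
      have hps : p ∈ s := hw₀.subset (List.mem_append_right _ (List.mem_singleton.mpr rfl))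
      have hlen' : (s.erase p).length = n := by
        rw [List.length_erase_of_mem hps, hlen]
        rfl
      have hw₁ : w₁.Perm (s.erase p) := LN_perm s p hps w₁ hw₀
      have key : ∀ x : ℕ → R, (∀ i, x i ∈ U') → ∀ b ∈ U,
          EV (fun w => c (w ++ [p])) (s.erase p) x * (b * a) ∈ W := by
        intro x hx b hb
        have hz : b * a ∈ U := hU b hb a haU
        have hx1 : ∀ i, x i ∈ U := fun i => hU'U _ (hx i)
        have hzx : ∀ i, b * a * x i ∈ W := by
          intro i
          obtain ⟨r, hr, hre⟩ := (hU' _).mp (hx i)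
          rw [← hre]
          have e : b * a * (a * r) = b * (a * a * r) := by simp only [mul_assoc]
          rw [e]
          exact (hW b hb _ ((hW r hr _ haa).2)).1
        have h1 := LN_split U W hW s hsnd p hps c x (b * a) hz hx1 hzx
        have h2 : EV c s (Function.update x p (b * a)) ∈ W := by
          apply hid
          intro i
          by_cases h : i = p
          · subst h; rw [Function.update_self]; exact hz
          · rw [Function.update_of_ne h]; exact hx1 i
        have h3 := W.sub_mem h2 h1
        rwa [sub_sub_cancel] at h3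
      refine ⟨s.erase p, fun w => c (w ++ [p]), hsnd.erase p, hlen', ⟨w₁, hw₁, hc⟩, ?_⟩
      intro x hx
      by_cases hn : n = 0
      · exfalso
        have hs0 : s.erase p = [] := List.length_eq_zero_iff.mp (hlen'.trans hn)
        rw [hs0] at hw₁
        have hw1' : w₁ = [] := List.perm_nil.mp hw₁
        subst hw1'
        have h1 : ∀ b ∈ U, b * a ∈ W := by
          intro b hb
          have h2 := key x hx b hb
          rw [hs0, LN_EV_nil, smul_mul_assoc, one_mul] at h2
          have h3 := W.smul_mem (c ([] ++ [p]))⁻¹ h2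
          rwa [smul_smul, inv_mul_cancel₀ hc, one_smul] at h3
        exact haW (hSem a haU fun u hu => h1 _ (hU a haU u hu))
      · have hne : s.erase p ≠ [] := by
          intro h
          apply hn
          rw [← hlen', h]
          rfl
        have hy : EV (fun w => c (w ++ [p])) (s.erase p) x ∈ U' :=
          LN_EV_mem U' hU'mul _ _ hne x hx
        have hkey := key x hx
        refine ⟨hy, fun v hv => ?_⟩
        obtain ⟨y, hyd⟩ : ∃ y, y = EV (fun w => c (w ++ [p])) (s.erase p) x := ⟨_, rfl⟩
        rw [← hyd] at hy hkey ⊢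
        obtain ⟨s₀, hs₀, hs₀e⟩ := (hU' _).mp hy
        have hyU := hU'U y hy
        have htU : y * a * v ∈ U := hU _ (hU y hyU a haU) v hv
        refine hSem _ htU fun u hu => ?_
        have e : y * a * v * u * (y * a * v) = y * (a * (v * u) * a) * (s₀ * (a * v)) := by
          have e1 : y * a * v * u * (y * a * v) = y * a * v * u * (a * s₀ * a * v) := by
            rw [hs₀e]
          rw [e1]
          simp only [mul_assoc]
        rw [e]
        exact (hW _ (hU s₀ hs₀ _ (hU a haU v hv)) _
          (hkey _ (hU a haU _ (hU v hv u hu)))).2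

end Pool.Agent.PX
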