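import Pool.Agent.helper93.PX.Spec

/-!
# MP_2b41e9_nt, row OA: some orbit of 1 falls into the hole
-/

set_option autoImplicit false

namespace Pool.Agent.PX

open Polynomial

theorem OA_step (b : ℕ → ℝ) (c : ℝ) (hc : 0 < c) (j n : ℕ) :
    orb b c j (n + 1) = c * Int.fract (b (j + n) * orb b c j n / c) := by
  show b (j + n) * orb b c j n - (⌊b (j + n) * orb b c j n / c⌋ : ℝ) * c = _
  rw [Int.fract]
  field_simp

theorem OA_nonneg (b : ℕ → ℝ) (c : ℝ) (hc : 0 < c) (j n : ℕ) : 0 ≤ orb b c j n := by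
  cases n with
  | zero => exact zero_le_one
  | succ n =>
    rw [OA_step b c hc]
    exact mul_nonneg hc.le (Int.fract_nonneg _)

/-- the integer part is constant on the interval -/
theorem OA_floor {s t : ℝ} (hs : 1 ≤ s) {φ : ℝ → ℝ} (hφ : ContinuousOn φ (Set.Ioo s t))
    (h : ∀ c, s < c → c < t → c * Int.fract (φ c) < 1) {c₁ c₂ : ℝ} (h1 : s < c₁) (h1' : c₁ < t)
    (h2 : s < c₂) (h2' : c₂ < t) : ⌊φ c₂⌋ ≤ ⌊φ c₁⌋ := by
  by_contra hlt
  push Not at hlt
  set M : ℤ := ⌊φ c₂⌋ with hM
  have e1 : φ c₁ < M := Int.floor_lt.1 hlt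
  have e2 : (M : ℝ) ≤ φ c₂ := Int.floor_le _
  set c' : ℝ := min c₁ c₂ with hc'
  have hc1 : 1 < c' := lt_of_le_of_lt hs (lt_min h1 h2)
  have hc0 : 0 < c' := by linarith
  have hinv : 1 / c' < 1 := by rw [div_lt_one hc0]; exact hc1
  set v : ℝ := max (φ c₁) (M - 1 + 1 / c') with hv
  have hv1 : φ c₁ ≤ v := le_max_left _ _
  have hv2 : (M : ℝ) - 1 + 1 / c' ≤ v := le_max_right _ _
  have hv3 : v < M := max_lt e1 (by linarith)
  have hsub : Set.uIcc c₁ c₂ ⊆ Set.Ioo s t := by
    intro x hx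
    rw [Set.mem_uIcc] at hx
    rcases hx with ⟨a1, a2⟩ | ⟨a1, a2⟩
    · exact ⟨by linarith, by linarith⟩
    · exact ⟨by linarith, by linarith⟩
  have hmem : v ∈ Set.uIcc (φ c₁) (φ c₂) := by
    rw [Set.mem_uIcc]
    left
    exact ⟨hv1, by linarith⟩
  obtain ⟨c₄, hc4, hφ4⟩ := intermediate_value_uIcc (hφ.mono hsub) hmem
  have h4 := hsub hc4
  have hge : c' ≤ c₄ := hc4.1
  have hfl : ⌊φ c₄⌋ = M - 1 := by
    rw [hφ4, Int.floor_eq_iff]
    push_cast
    have : 0 < 1 / c' := by positivity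
    exact ⟨by linarith, by linarith⟩
  have hfr : 1 / c' ≤ Int.fract (φ c₄) := by
    rw [Int.fract, hfl, hφ4]
    push_cast
    linarith
  have hcon := h c₄ h4.1 h4.2
  have : 1 ≤ c₄ * Int.fract (φ c₄) := by
    calc (1 : ℝ) = c' * (1 / c') := by field_simp
      _ ≤ c₄ * Int.fract (φ c₄) := mul_le_mul hge hfr (by positivity) (by linarith)
  linarith

theorem OA : OA_stmt := by
  intro b m hm hb j s t hs hst htm
  by_contra hcon
  push Not at hcon
  have hlt : ∀ c, s < c → c < t → ∀ n : ℕ, 1 ≤ n → orb b c j n < 1 := fun c h1 h2 n hn =>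
    hcon c h1 h2 n hn
  have key : ∀ n : ℕ, ∃ A B : ℝ, 0 ≤ B ∧ (n = 0 → A = 1 ∧ B = 0) ∧ (1 ≤ n → m ^ (n - 1) ≤ B) ∧
      ∀ c, s < c → c < t → orb b c j n = A - B * c := by
    intro n
    induction n with
    | zero =>
      refine ⟨1, 0, le_rfl, fun _ => ⟨rfl, rfl⟩, fun h => absurd h (by norm_num), ?_⟩
      intro c _ _
      show (1 : ℝ) = 1 - 0 * c
      ring
    | succ n ih =>
      obtain ⟨A, B, hB0, hAB, hBm, hAc⟩ := ih
      set φ : ℝ → ℝ := fun c => b (j + n) * (A - B * c) / c with hφ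
      have hcont : ContinuousOn φ (Set.Ioo s t) := by
        rw [hφ]
        apply ContinuousOn.div
        · fun_prop
        · exact continuousOn_id
        · intro c hc
          have := hc.1
          show c ≠ 0
          intro h0
          linarith
      have hb0 : 0 < b (j + n) := by linarith [hb (j + n)]
      have hφeq : ∀ c, s < c → c < t → φ c = b (j + n) * orb b c j n / c := by
        intro c h1 h2
        show b (j + n) * (A - B * c) / c = _
        rw [hAc c h1 h2]
      have hfrac : ∀ c, s < c → c < t → c * Int.fract (φ c) < 1 := by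
        intro c h1 h2
        have hc0 : 0 < c := by linarith
        rw [hφeq c h1 h2, ← OA_step b c hc0]
        exact hlt c h1 h2 (n + 1) (by omega)
      set c₀ : ℝ := (s + t) / 2 with hc₀
      have h01 : s < c₀ := by rw [hc₀]; linarith
      have h02 : c₀ < t := by rw [hc₀]; linarith
      set a : ℤ := ⌊φ c₀⌋ with ha
      have hconst : ∀ c, s < c → c < t → ⌊φ c⌋ = a := by
        intro c h1 h2
        exact le_antisymm (OA_floor hs hcont hfrac h01 h02 h1 h2)
          (OA_floor hs hcont hfrac h1 h2 h01 h02)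
      have ha0 : 0 ≤ a := by
        rw [ha, Int.floor_nonneg, hφeq c₀ h01 h02]
        have : 0 < c₀ := by linarith
        exact div_nonneg (mul_nonneg hb0.le (OA_nonneg b c₀ this j n)) this.le
      have ha0' : (0 : ℝ) ≤ a := by exact_mod_cast ha0
      refine ⟨b (j + n) * A, b (j + n) * B + a, by positivity, fun h => absurd h (by omega), ?_, ?_⟩
      · intro _
        rw [Nat.add_sub_cancel]
        rcases Nat.eq_zero_or_pos n with h0 | h0
        · obtain ⟨hA1, hB1⟩ := hAB h0
          rw [h0, pow_zero, hB1, mul_zero, zero_add]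
          have h3 : 1 ≤ a := by
            rw [ha, Int.le_floor]
            show ((1 : ℤ) : ℝ) ≤ b (j + n) * (A - B * c₀) / c₀
            rw [hA1, hB1, le_div_iff₀ (by linarith)]
            push_cast
            have := hb (j + n)
            linarith
          exact_mod_cast h3
        · have h4 := hBm h0
          have h5 : m ^ n = m * m ^ (n - 1) := by
            rw [← pow_succ']
            congr 1
            omega
          rw [h5]
          have h6 : m * m ^ (n - 1) ≤ b (j + n) * B :=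
            mul_le_mul (hb (j + n)) h4 (by positivity) hb0.le
          linarith
      · intro c h1 h2
        show b (j + n) * orb b c j n - (⌊b (j + n) * orb b c j n / c⌋ : ℝ) * c = _
        rw [← hφeq c h1 h2, hconst c h1 h2, hAc c h1 h2]
        ring
  set c₁ : ℝ := (2 * s + t) / 3 with hc₁
  set c₂ : ℝ := (s + 2 * t) / 3 with hc₂
  have h11 : s < c₁ := by rw [hc₁]; linarith
  have h12 : c₁ < t := by rw [hc₁]; linarith
  have h21 : s < c₂ := by rw [hc₂]; linarith
  have h22 : c₂ < t := by rw [hc₂]; linarith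
  have hgap : 0 < c₂ - c₁ := by rw [hc₁, hc₂]; linarith
  obtain ⟨n, hn⟩ := pow_unbounded_of_one_lt (1 / (c₂ - c₁)) hm
  obtain ⟨A, B, hB0, -, hBm, hAc⟩ := key (n + 1)
  have h3 := hBm (by omega)
  rw [Nat.add_sub_cancel] at h3
  have h4 := hAc c₁ h11 h12
  have h5 := hAc c₂ h21 h22
  have h6 := hlt c₁ h11 h12 (n + 1) (by omega)
  have h7 := OA_nonneg b c₂ (by linarith) j (n + 1)
  have h8 : B * (c₂ - c₁) < 1 := by
    have : B * (c₂ - c₁) = orb b c₁ j (n + 1) - orb b c₂ j (n + 1) := by
      rw [h4, h5]; ring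
    rw [this]
    linarith
  have h9 : 1 < B * (c₂ - c₁) := by
    have h10 : 1 / (c₂ - c₁) < B := lt_of_lt_of_le hn h3
    rwa [div_lt_iff₀ hgap] at h10
  linarith

end Pool.Agent.PX
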